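import Pool.Agent.Helper91.ZM.MSQ

/-! Mean square theorem (Carlson type): `ζ(s) ∏_{p ≤ y} (1 - p^(-s)) - 1` is small in mean square on
every line `re s = σ`, uniformly for `1/2 + ε ≤ σ ≤ 2`. -/

set_option autoImplicit false

namespace Pool.Agent.Helper91.ZM

open MeasureTheory Set Filter Topology Complex

theorem dl_tendsto : Tendsto (fun y : ℕ => dl (PY y)) atTop (𝓝 0) := by
  have h1 : Tendsto (fun n : ℕ => ∑ i ∈ Finset.range n,
      Set.indicator {p : ℕ | p.Prime} (fun n : ℕ => (1 : ℝ) / n) i) atTop atTop := by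
    refine (not_summable_iff_tendsto_nat_atTop_of_nonneg (fun n => ?_)).1
      not_summable_one_div_on_primes
    exact Set.indicator_nonneg (fun _ _ => by positivity) _
  have h2 : Tendsto (fun y : ℕ => ∑ p ∈ PY y, (1 : ℝ) / p) atTop atTop := by
    have h3 := h1.comp (tendsto_add_atTop_nat 1)
    refine h3.congr fun y => ?_
    simp only [Function.comp_def, PY]
    rw [Finset.sum_filter]
    refine Finset.sum_congr rfl fun i _ => ?_
    simp [Set.indicator_apply]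
  have h4 : Tendsto (fun y : ℕ => Real.exp (-(∑ p ∈ PY y, (1 : ℝ) / p))) atTop (𝓝 0) :=
    Real.tendsto_exp_neg_atTop_nhds_zero.comp h2
  refine squeeze_zero (fun y => dl_nonneg _ PY_prime) (fun y => ?_) h4
  unfold dl
  rw [← Finset.sum_neg_distrib, Real.exp_sum]
  refine Finset.prod_le_prod (fun p hp => ?_) (fun p _ => ?_)
  · have : (1 : ℝ) ≤ p := by exact_mod_cast (PY_prime p hp).one_le
    have h2 : 1 / (p : ℝ) ≤ 1 := by
      rw [div_le_one (by linarith)]
      exact this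
    linarith
  · have := Real.add_one_le_exp (-(1 / (p : ℝ)))
    linarith

theorem tail_small {ε κ : ℝ} (hε : 0 < ε) (hκ : 0 < κ) : ∃ y0 : ℕ, ∀ y : ℕ, y0 ≤ y →
    ∀ M : ℕ, ∑ n ∈ Finset.Ioc y M, (n : ℝ) ^ (-(1 + 2 * ε)) ≤ κ := by
  have hs : Summable (fun n : ℕ => (n : ℝ) ^ (-(1 + 2 * ε))) :=
    Real.summable_nat_rpow.2 (by linarith)
  obtain ⟨s, hs⟩ := summable_iff_vanishing_norm.1 hs κ hκ
  refine ⟨s.sup id, fun y hy M => ?_⟩
  have hd : Disjoint (Finset.Ioc y M) s := by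
    rw [Finset.disjoint_left]
    intro n hn hns
    rw [Finset.mem_Ioc] at hn
    have : n ≤ s.sup id := Finset.le_sup (f := id) hns
    omega
  exact ((le_abs_self _).trans (le_of_eq (Real.norm_eq_abs _).symm)).trans (hs _ hd).le

/-- **Mean square theorem.** -/
theorem msq {ε η : ℝ} (hε : 0 < ε) (hε2 : ε < 1 / 2) (hη : 0 < η) :
    ∃ y0 : ℕ, ∀ y : ℕ, y0 ≤ y → ∃ T0 : ℝ, 1 ≤ T0 ∧ ∀ T : ℝ, T0 ≤ T → ∀ σ : ℝ,
      1 / 2 + ε ≤ σ → σ ≤ 2 →
      ∫ t in T..2 * T, ‖riemannZeta ((σ : ℂ) + t * I) * EP (PY y) ((σ : ℂ) + t * I) - 1‖ ^ 2 ≤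
        η * T := by
  -- choice of `y0`
  have hκ : 0 < η / (16 * 65536) := by positivity
  obtain ⟨y1, hy1⟩ := tail_small hε hκ
  have hδ : ∀ᶠ y : ℕ in atTop, dl (PY y) ^ 2 ≤ η / (16 * 131072) := by
    have h1 : Tendsto (fun y : ℕ => dl (PY y) ^ 2) atTop (𝓝 (0 ^ 2)) := dl_tendsto.pow 2
    rw [zero_pow two_ne_zero] at h1
    exact (h1.eventually (gt_mem_nhds (show 0 < η / (16 * 131072) by positivity))).mono
      fun y hy => le_of_lt hy
  obtain ⟨y2, hy2⟩ := eventually_atTop.1 hδ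
  refine ⟨max y1 y2, fun y hy => ?_⟩
  have hyy1 : y1 ≤ y := (le_max_left _ _).trans hy
  have hyy2 : y2 ≤ y := (le_max_right _ _).trans hy
  obtain ⟨C, hC1, hC⟩ := E1_bound (PY y) PY_prime
  set K := 2 / (1 - 2 * ε) + 4 * C ^ 2 with hK
  have hK0 : 0 < K := by
    have : 0 < 1 - 2 * ε := by linarith
    positivity
  have ht : ∀ᶠ T : ℝ in atTop, T ^ (-(2 * ε)) ≤ η / (4 * 4096 * K) :=
    ((tendsto_rpow_neg_atTop (show 0 < 2 * ε by linarith)).eventually
      (gt_mem_nhds (show 0 < η / (4 * 4096 * K) by positivity))).mono fun y hy => le_of_lt hy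
  obtain ⟨T1, hT1⟩ := eventually_atTop.1 ht
  refine ⟨max 1 T1, le_max_left _ _, fun T hT σ hσ1 hσ2 => ?_⟩
  have hT1' : 1 ≤ T := (le_max_left _ _).trans hT
  have hTT1 : T1 ≤ T := (le_max_right _ _).trans hT
  have hT0 : 0 < T := by linarith
  have hσ0 : 0 < σ := by linarith
  have h1 := msq1 y hε hε2 hT1' hC hσ1 hσ2
  have h2 := hy1 y hyy1 ⌊2 * T⌋₊
  have h3 := hy2 y hyy2
  have h4 := hT1 T hTT1
  set R := ∑ n ∈ Finset.Ioc y ⌊2 * T⌋₊, (n : ℝ) ^ (-(1 + 2 * ε)) with hR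
  set D := dl (PY y) ^ 2 with hD
  have hD0 : 0 ≤ D := sq_nonneg _
  -- pointwise
  have hpt : ∀ t ∈ Icc T (2 * T),
      ‖riemannZeta ((σ : ℂ) + t * I) * EP (PY y) ((σ : ℂ) + t * I) - 1‖ ^ 2 ≤
      2 * ‖((σ : ℂ) + t * I) * mellin (E1 (PY y)) (-((σ : ℂ) + t * I))‖ ^ 2 + 8 * D := by
    intro t ht
    have hre : 0 < ((σ : ℂ) + t * I).re := by simpa using hσ0
    have hne : (σ : ℂ) + t * I ≠ 1 := by
      intro h
      have := congrArg Complex.im h
      simp at this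
      linarith [ht.1]
    rw [rep (PY y) PY_prime hre hne]
    have hs1 : 1 ≤ ‖(σ : ℂ) + t * I - 1‖ := by
      have h5 := Complex.abs_im_le_norm ((σ : ℂ) + t * I - 1)
      have h6 : ((σ : ℂ) + t * I - 1).im = t := by simp
      rw [h6] at h5
      linarith [le_abs_self t, ht.1]
    have hs2 : ‖(σ : ℂ) + t * I‖ ≤ 2 * ‖(σ : ℂ) + t * I - 1‖ := by
      have h5 : ‖(σ : ℂ) + t * I‖ ≤ ‖(σ : ℂ) + t * I - 1‖ + ‖(1 : ℂ)‖ := by
        have := norm_add_le ((σ : ℂ) + t * I - 1) 1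
        simpa using this
      rw [norm_one] at h5
      linarith
    have hs3 : ‖(dl (PY y) : ℂ) * ((σ : ℂ) + t * I) / ((σ : ℂ) + t * I - 1)‖ ≤
        2 * dl (PY y) := by
      rw [norm_div, norm_mul, Complex.norm_real, Real.norm_eq_abs,
        abs_of_nonneg (dl_nonneg _ PY_prime), div_le_iff₀ (by linarith)]
      have := mul_le_mul_of_nonneg_left hs2 (dl_nonneg (PY y) PY_prime)
      linarith
    have h7 := norm_add_le (((σ : ℂ) + t * I) * mellin (E1 (PY y)) (-((σ : ℂ) + t * I)))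
      ((dl (PY y) : ℂ) * ((σ : ℂ) + t * I) / ((σ : ℂ) + t * I - 1))
    have h8 := pow_le_pow_left₀ (norm_nonneg _) h7 2
    have h9 := pow_le_pow_left₀ (norm_nonneg _) hs3 2
    refine h8.trans ?_
    set a := ‖((σ : ℂ) + t * I) * mellin (E1 (PY y)) (-((σ : ℂ) + t * I))‖
    set b := ‖(dl (PY y) : ℂ) * ((σ : ℂ) + t * I) / ((σ : ℂ) + t * I - 1)‖
    have h10 : (2 * dl (PY y)) ^ 2 = 4 * D := by rw [hD]; ring
    rw [h10] at h9
    nlinarith [sq_nonneg (a - b)]
  have hcl : Continuous (fun t : ℝ => (σ : ℂ) + t * I) := by fun_prop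
  have hcE : Continuous (fun t : ℝ => mellin (E1 (PY y)) (-((σ : ℂ) + t * I))) := by
    rw [continuous_iff_continuousAt]
    intro t
    have hre : 0 < ((σ : ℂ) + t * I).re := by simpa using hσ0
    have h7 := (E1_diff (PY y) PY_prime hre).continuousAt
    exact ContinuousAt.comp (f := fun t : ℝ => (σ : ℂ) + t * I) h7 hcl.continuousAt
  have hcA : ContinuousOn (fun t : ℝ =>
      riemannZeta ((σ : ℂ) + t * I) * EP (PY y) ((σ : ℂ) + t * I) - 1) (Icc T (2 * T)) := by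
    intro t ht
    have hne : (σ : ℂ) + t * I ≠ 1 := by
      intro h
      have := congrArg Complex.im h
      simp at this
      linarith [ht.1]
    have h5 : ContinuousAt (fun t : ℝ => riemannZeta ((σ : ℂ) + t * I)) t :=
      ContinuousAt.comp (f := fun t : ℝ => (σ : ℂ) + t * I)
        (differentiableAt_riemannZeta hne).continuousAt hcl.continuousAt
    have h6 : ContinuousAt (fun t : ℝ => EP (PY y) ((σ : ℂ) + t * I)) t :=
      ContinuousAt.comp (f := fun t : ℝ => (σ : ℂ) + t * I)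
        (EP_diff (PY y) PY_prime _).continuousAt hcl.continuousAt
    exact ((h5.mul h6).sub continuousAt_const).continuousWithinAt
  have h5 : ∫ t in T..2 * T,
      ‖riemannZeta ((σ : ℂ) + t * I) * EP (PY y) ((σ : ℂ) + t * I) - 1‖ ^ 2 ≤
      ∫ t in T..2 * T,
        (2 * ‖((σ : ℂ) + t * I) * mellin (E1 (PY y)) (-((σ : ℂ) + t * I))‖ ^ 2 + 8 * D) := by
    refine intervalIntegral.integral_mono_on (by linarith) ?_ ?_ hpt
    · refine ContinuousOn.intervalIntegrable ?_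
      rw [uIcc_of_le (by linarith)]
      exact hcA.norm.pow 2
    · exact ((((hcl.mul hcE).norm.pow 2).const_mul 2).add continuous_const).intervalIntegrable _ _
  refine h5.trans ?_
  rw [intervalIntegral.integral_add, intervalIntegral.integral_const_mul,
    intervalIntegral.integral_const, smul_eq_mul]
  rotate_left
  · exact (((hcl.mul hcE).norm.pow 2).const_mul 2).intervalIntegrable _ _
  · exact continuous_const.intervalIntegrable _ _
  have e1 : 256 * T ^ 2 * (8 * ((16 * D + 8 * R) / T + K * T ^ (-(1 + 2 * ε)))) =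
      2048 * (16 * D + 8 * R) * T + 2048 * K * T ^ (-(2 * ε)) * T := by
    have e2 : T ^ 2 * T ^ (-(1 + 2 * ε)) = T ^ (-(2 * ε)) * T := by
      rw [← Real.rpow_natCast T 2, ← Real.rpow_add hT0]
      nth_rewrite 3 [← Real.rpow_one T]
      rw [← Real.rpow_add hT0]
      congr 1
      push_cast
      ring
    have e3 : 256 * T ^ 2 * (8 * ((16 * D + 8 * R) / T + K * T ^ (-(1 + 2 * ε)))) =
        2048 * (16 * D + 8 * R) * T + 2048 * K * (T ^ 2 * T ^ (-(1 + 2 * ε))) := by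
      field_simp
      ring
    rw [e3, e2]
    ring
  rw [e1] at h1
  have g1 : 4096 * (16 * D) ≤ η / 32 := by
    have := mul_le_mul_of_nonneg_left h3 (show (0 : ℝ) ≤ 4096 * 16 by norm_num)
    linarith
  have g2 : 4096 * (8 * R) ≤ η / 32 := by
    have := mul_le_mul_of_nonneg_left h2 (show (0 : ℝ) ≤ 4096 * 8 by norm_num)
    linarith
  have g3 : 4096 * K * T ^ (-(2 * ε)) ≤ η / 4 := by
    have := mul_le_mul_of_nonneg_left h4 (show (0 : ℝ) ≤ 4096 * K by positivity)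
    refine this.trans (le_of_eq ?_)
    field_simp
  have g4 : 8 * D ≤ η / 32 := by linarith
  have g5 : 4096 * (16 * D + 8 * R) + 4096 * K * T ^ (-(2 * ε)) + 8 * D ≤ η := by linarith
  have g6 := mul_le_mul_of_nonneg_right g5 hT0.le
  linarith

end Pool.Agent.Helper91.ZM

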