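import Pool.Agent.Helper91.ZM.CNT

/-! Mellin transforms of the counting functions. -/

set_option autoImplicit false

namespace Pool.Agent.Helper91.ZM

open MeasureTheory Set Filter Topology Complex Asymptotics

/-- the inverse of the partial Euler product -/
noncomputable def EP (P : Finset ℕ) (s : ℂ) : ℂ := ∏ p ∈ P, (1 - (p : ℂ) ^ (-s))

noncomputable def FP (P : Finset ℕ) (x : ℝ) : ℂ := ((DP P x : ℝ) : ℂ)

theorem FP_zero (P : Finset ℕ) {x : ℝ} (hx : x < 1) : FP P x = 0 := by
  unfold FP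
  rw [DP_zero P hx]
  simp

theorem FP_norm (P : Finset ℕ) (x : ℝ) : ‖FP P x‖ ≤ |x| := by
  rcases lt_or_ge x 0 with h | h
  · rw [FP_zero P (by linarith)]
    simp
  · unfold FP
    rw [Complex.norm_real, Real.norm_eq_abs, abs_of_nonneg (Nat.cast_nonneg _), abs_of_nonneg h]
    exact DP_le P h

theorem FP_meas (P : Finset ℕ) : Measurable (FP P) :=
  Complex.measurable_ofReal.comp (DP_measurable P)

theorem FP_loc (P : Finset ℕ) : LocallyIntegrableOn (FP P) (Ioi 0) := by
  have h1 : LocallyIntegrable (fun x : ℝ => |x|) := continuous_abs.locallyIntegrable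
  have h2 : LocallyIntegrable (FP P) := h1.mono (FP_meas P).aestronglyMeasurable
    (Eventually.of_forall fun x => by
      simp only [Real.norm_eq_abs, abs_abs]
      exact FP_norm P x)
  exact h2.locallyIntegrableOn _

theorem bot_of_zero {f : ℝ → ℂ} (hf : ∀ x, x < 1 → f x = 0) (b : ℝ) :
    f =O[𝓝[>] 0] (fun x : ℝ => x ^ (-b)) := by
  have : f =ᶠ[𝓝[>] 0] (fun _ => (0 : ℂ)) := by
    have h1 : ∀ᶠ x : ℝ in 𝓝[>] 0, x < 1 :=
      nhdsWithin_le_nhds (Iio_mem_nhds zero_lt_one)
    filter_upwards [h1] with x hx using hf x hx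
  exact this.trans_isBigO (isBigO_zero _ _)

theorem FP_conv (P : Finset ℕ) {s : ℂ} (hs : 1 < s.re) : MellinConvergent (FP P) (-s) := by
  refine mellinConvergent_of_isBigO_rpow (a := -1) (b := -s.re - 1) (FP_loc P) ?_ ?_
    (bot_of_zero (fun x hx => FP_zero P hx) _) ?_
  · refine IsBigO.of_bound 1 ?_
    filter_upwards [eventually_ge_atTop 0] with x hx
    rw [neg_neg, Real.rpow_one, one_mul]
    exact FP_norm P x
  · simp only [neg_re]
    linarith
  · simp only [neg_re]
    linarith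

theorem mellin_one {f : ℝ → ℂ} (hf : ∀ x, x < 1 → f x = 0) (s : ℂ) :
    mellin f (-s) = ∫ t in Ioi (1 : ℝ), f t * (t : ℂ) ^ (-(s + 1)) := by
  unfold mellin
  rw [← integral_Ici_eq_integral_Ioi (x := (1 : ℝ))]
  rw [← setIntegral_eq_of_subset_of_forall_sdiff_eq_zero (s := Ici (1 : ℝ)) (t := Ioi (0 : ℝ))
    measurableSet_Ioi (fun x (hx : 1 ≤ x) => lt_of_lt_of_le (zero_lt_one' ℝ) hx) ?_]
  · refine setIntegral_congr_fun measurableSet_Ioi fun t _ => ?_
    simp only [smul_eq_mul]
    rw [mul_comm]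
    congr 2
    ring
  · intro x hx
    have : x < 1 := not_le.1 hx.2
    rw [hf x this, zero_mul]

theorem mel_base {s : ℂ} (hs : 1 < s.re) : mellin (FP ∅) (-s) = riemannZeta s / s := by
  have hs0 : s ≠ 0 := by
    intro h
    rw [h] at hs
    simp at hs
    linarith
  rw [mellin_one (fun x hx => FP_zero ∅ hx)]
  have h1 := LSeries_eq_mul_integral' (fun _ : ℕ => (1 : ℂ)) (r := 1) zero_le_one hs (by
    refine IsBigO.of_bound 1 (Eventually.of_forall fun n => ?_)
    simp)
  have h2 : LSeries (fun _ : ℕ => (1 : ℂ)) s = riemannZeta s := LSeries_one_eq_riemannZeta hs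
  rw [h2] at h1
  rw [h1, mul_div_cancel_left₀ _ hs0]
  refine setIntegral_congr_fun measurableSet_Ioi fun t _ => ?_
  simp only [FP, DP]
  simp

theorem mel_FP (P : Finset ℕ) (hP : ∀ q ∈ P, q.Prime) {s : ℂ} (hs : 1 < s.re) :
    mellin (FP P) (-s) = riemannZeta s * EP P s / s := by
  classical
  induction P using Finset.induction_on with
  | empty =>
    rw [mel_base hs]
    simp [EP]
  | insert p P hpP ih =>
    have hP' : ∀ q ∈ P, q.Prime := fun q hq => hP q (Finset.mem_insert_of_mem hq)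
    have hp : p.Prime := hP p (Finset.mem_insert_self _ _)
    have hp0 : (0 : ℝ) < p := by exact_mod_cast hp.pos
    have hpi : (0 : ℝ) < (p : ℝ)⁻¹ := inv_pos.2 hp0
    have e1 : FP (insert p P) = fun x => FP P x - FP P ((p : ℝ)⁻¹ * x) := by
      funext x
      unfold FP
      rw [DP_insert' P hP' p hp hpP x, show x / (p : ℝ) = (p : ℝ)⁻¹ * x from by ring]
      push_cast
      rfl
    have c1 := FP_conv P hs
    have c2 : MellinConvergent (fun x => FP P ((p : ℝ)⁻¹ * x)) (-s) :=
      (MellinConvergent.comp_mul_left hpi).2 c1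
    rw [e1, (hasMellin_sub c1 c2).2, mellin_comp_mul_left _ _ hpi, ih hP', neg_neg]
    have e2 : (((p : ℝ)⁻¹ : ℝ) : ℂ) ^ s = (p : ℂ) ^ (-s) := by
      rw [Complex.ofReal_inv, Complex.ofReal_natCast, Complex.cpow_neg, Complex.inv_cpow]
      rw [Complex.natCast_arg]
      exact Real.pi_pos.ne
    have e3 : EP (insert p P) s = (1 - (p : ℂ) ^ (-s)) * EP P s := by
      unfold EP
      rw [Finset.prod_insert hpP]
    rw [e2, e3, smul_eq_mul]
    ring

/-- the error function -/
noncomputable def E1 (P : Finset ℕ) (x : ℝ) : ℂ :=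
  if x < 1 then 0 else (((DP P x : ℝ) - 1 - dl P * x : ℝ) : ℂ)

theorem E1_zero (P : Finset ℕ) {x : ℝ} (hx : x < 1) : E1 P x = 0 := if_pos hx

theorem E1_of_ge (P : Finset ℕ) {x : ℝ} (hx : 1 ≤ x) :
    E1 P x = (((DP P x : ℝ) - 1 - dl P * x : ℝ) : ℂ) := if_neg (not_lt.2 hx)

theorem E1_bound (P : Finset ℕ) (hP : ∀ q ∈ P, q.Prime) :
    ∃ C : ℝ, 1 ≤ C ∧ ∀ x : ℝ, ‖E1 P x‖ ≤ C := by
  obtain ⟨C, hC, hb⟩ := DP_bound P hP
  refine ⟨C + 1, by linarith, fun x => ?_⟩
  rcases lt_or_ge x 1 with h | h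
  · rw [E1_zero P h, norm_zero]
    linarith
  · rw [E1_of_ge P h, Complex.norm_real, Real.norm_eq_abs]
    have h1 := hb x (by linarith)
    rw [abs_le] at h1 ⊢
    constructor <;> linarith [h1.1, h1.2]

theorem E1_meas (P : Finset ℕ) : Measurable (E1 P) := by
  unfold E1
  refine Measurable.ite measurableSet_Iio measurable_const ?_
  refine Complex.measurable_ofReal.comp ?_
  exact ((DP_measurable P).sub measurable_const).sub (measurable_const.mul measurable_id)

theorem E1_loc (P : Finset ℕ) (hP : ∀ q ∈ P, q.Prime) : LocallyIntegrableOn (E1 P) (Ioi 0) := by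
  obtain ⟨C, hC, hb⟩ := E1_bound P hP
  have h1 : LocallyIntegrable (fun _ : ℝ => C) := continuous_const.locallyIntegrable
  have h2 : LocallyIntegrable (E1 P) := h1.mono (E1_meas P).aestronglyMeasurable
    (Eventually.of_forall fun x => by
      rw [Real.norm_eq_abs, abs_of_nonneg (by linarith : (0 : ℝ) ≤ C)]
      exact hb x)
  exact h2.locallyIntegrableOn _

theorem E1_top (P : Finset ℕ) (hP : ∀ q ∈ P, q.Prime) :
    E1 P =O[atTop] (fun x : ℝ => x ^ (-(0 : ℝ))) := by
  obtain ⟨C, hC, hb⟩ := E1_bound P hP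
  refine IsBigO.of_bound C (Eventually.of_forall fun x => ?_)
  simp only [neg_zero, Real.rpow_zero, norm_one, mul_one]
  exact hb x

theorem E1_conv (P : Finset ℕ) (hP : ∀ q ∈ P, q.Prime) {s : ℂ} (hs : 0 < s.re) :
    MellinConvergent (E1 P) (-s) := by
  refine mellinConvergent_of_isBigO_rpow (a := 0) (b := -s.re - 1) (E1_loc P hP) (E1_top P hP) ?_
    (bot_of_zero (fun x hx => E1_zero P hx) _) ?_
  · simp only [neg_re]
    linarith
  · simp only [neg_re]
    linarith

theorem E1_diff (P : Finset ℕ) (hP : ∀ q ∈ P, q.Prime) {s : ℂ} (hs : 0 < s.re) :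
    DifferentiableAt ℂ (fun s => mellin (E1 P) (-s)) s := by
  have h1 : DifferentiableAt ℂ (mellin (E1 P)) (-s) := by
    refine mellin_differentiableAt_of_isBigO_rpow (a := 0) (b := -s.re - 1) (E1_loc P hP)
      (E1_top P hP) ?_ (bot_of_zero (fun x hx => E1_zero P hx) _) ?_
    · simp only [neg_re]
      linarith
    · simp only [neg_re]
      linarith
  exact h1.comp s differentiableAt_id.neg

theorem mel_E1 (P : Finset ℕ) (hP : ∀ q ∈ P, q.Prime) {s : ℂ} (hs : 1 < s.re) :
    mellin (E1 P) (-s) = riemannZeta s * EP P s / s - 1 / s - (dl P : ℂ) / (s - 1) := by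
  rw [← mel_FP P hP hs, mellin_one (fun x hx => E1_zero P hx),
    mellin_one (fun x hx => FP_zero P hx)]
  have hre1 : (-(s + 1)).re < -1 := by
    simp only [neg_re, add_re, one_re]
    linarith
  have hre2 : (-s).re < -1 := by
    simp only [neg_re]
    linarith
  have i1 : IntegrableOn (fun t : ℝ => FP P t * (t : ℂ) ^ (-(s + 1))) (Ioi 1) := by
    have h1 := (FP_conv P hs).mono_set (Ioi_subset_Ioi (zero_le_one : (0 : ℝ) ≤ 1))
    refine h1.congr_fun (fun t _ => ?_) measurableSet_Ioi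
    simp only [smul_eq_mul]
    rw [mul_comm]
    congr 2
    ring
  have i2 : IntegrableOn (fun t : ℝ => (t : ℂ) ^ (-(s + 1))) (Ioi 1) :=
    integrableOn_Ioi_cpow_of_lt hre1 zero_lt_one
  have i3 : IntegrableOn (fun t : ℝ => (t : ℂ) ^ (-s)) (Ioi 1) :=
    integrableOn_Ioi_cpow_of_lt hre2 zero_lt_one
  have e1 : ∫ t in Ioi (1 : ℝ), E1 P t * (t : ℂ) ^ (-(s + 1)) =
      ∫ t in Ioi (1 : ℝ), (FP P t * (t : ℂ) ^ (-(s + 1)) - (t : ℂ) ^ (-(s + 1)) -
        (dl P : ℂ) * (t : ℂ) ^ (-s)) := by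
    refine setIntegral_congr_fun measurableSet_Ioi fun t ht => ?_
    have ht0 : (t : ℂ) ≠ 0 := by
      have : (0 : ℝ) < t := lt_trans zero_lt_one ht
      exact_mod_cast this.ne'
    have e2 : (t : ℂ) ^ (-s) = t * (t : ℂ) ^ (-(s + 1)) := by
      rw [show -s = 1 + -(s + 1) from by ring, Complex.cpow_add _ _ ht0, Complex.cpow_one]
    rw [E1_of_ge P (le_of_lt ht), e2]
    unfold FP
    push_cast
    ring
  have i4 : IntegrableOn (fun t : ℝ => FP P t * (t : ℂ) ^ (-(s + 1)) -
      (t : ℂ) ^ (-(s + 1))) (Ioi 1) := i1.sub i2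
  have i5 : IntegrableOn (fun t : ℝ => (dl P : ℂ) * (t : ℂ) ^ (-s)) (Ioi 1) := i3.const_mul _
  rw [e1, integral_sub i4 i5, integral_sub i1 i2, integral_const_mul,
    integral_Ioi_cpow_of_lt hre1 zero_lt_one, integral_Ioi_cpow_of_lt hre2 zero_lt_one]
  have hs0 : s ≠ 0 := by
    intro h
    rw [h] at hs
    simp at hs
    linarith
  have hs1 : s - 1 ≠ 0 := by
    intro h
    rw [sub_eq_zero.1 h] at hs
    simp at hs
  have hs2 : -s + 1 ≠ 0 := by
    intro h
    apply hs1
    linear_combination -h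
  have e3 : -(s + 1) + 1 = -s := by ring
  rw [e3]
  simp only [Complex.ofReal_one, Complex.one_cpow]
  field_simp
  ring

theorem EP_diff (P : Finset ℕ) (hP : ∀ q ∈ P, q.Prime) : Differentiable ℂ (EP P) := by
  unfold EP
  intro s
  refine DifferentiableAt.fun_finsetProd fun p hp => ?_
  have hp0 : (p : ℂ) ≠ 0 := by
    exact_mod_cast (hP p hp).ne_zero
  refine DifferentiableAt.sub (differentiableAt_const _) ?_
  exact DifferentiableAt.const_cpow differentiableAt_id.neg (Or.inl hp0)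

/-- The representation in the half plane `0 < re s`. -/
theorem rep (P : Finset ℕ) (hP : ∀ q ∈ P, q.Prime) {s : ℂ} (hs : 0 < s.re) (hs1 : s ≠ 1) :
    riemannZeta s * EP P s - 1 = s * mellin (E1 P) (-s) + (dl P : ℂ) * s / (s - 1) := by
  set U : Set ℂ := {s : ℂ | 0 < s.re} with hU
  have hUo : IsOpen U := isOpen_lt continuous_const Complex.continuous_re
  have hUc : IsPreconnected U := (convex_halfSpace_re_gt 0).isPreconnected
  set f : ℂ → ℂ := fun s => riemannZeta₁ s * EP P s with hf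
  set g : ℂ → ℂ := fun s => (s - 1) * (s * mellin (E1 P) (-s)) + (s - 1) + (dl P : ℂ) * s with hg
  have hfd : DifferentiableOn ℂ f U := fun z _ =>
    ((differentiable_riemannZeta₁ z).mul (EP_diff P hP z)).differentiableWithinAt
  have hgd : DifferentiableOn ℂ g U := fun z hz => by
    have h1 : DifferentiableAt ℂ (fun s => mellin (E1 P) (-s)) z := E1_diff P hP hz
    have h2 : DifferentiableAt ℂ (fun s : ℂ => s - 1) z := by fun_prop
    have h3 : DifferentiableAt ℂ (fun s : ℂ => s) z := by fun_prop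
    exact (((h2.mul (h3.mul h1)).add h2).add (h3.const_mul _)).differentiableWithinAt
  have h2U : (2 : ℂ) ∈ U := by simp [hU]
  have hev : f =ᶠ[𝓝 (2 : ℂ)] g := by
    have h1 : {s : ℂ | 1 < s.re} ∈ 𝓝 (2 : ℂ) :=
      (isOpen_lt continuous_const Complex.continuous_re).mem_nhds (by simp)
    filter_upwards [h1] with z hz
    have hz' : 1 < z.re := hz
    have hz0 : z ≠ 0 := by
      intro h
      rw [h] at hz'
      simp at hz'
      linarith
    have hz1 : z ≠ 1 := by
      intro h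
      rw [h] at hz'
      simp at hz'
    have hz2 : z - 1 ≠ 0 := sub_ne_zero.2 hz1
    simp only [hf, hg]
    rw [mel_E1 P hP hz', riemannZeta_eq_inv_sub_mul hz1]
    field_simp
    ring
  have heq := (hfd.analyticOnNhd hUo).eqOn_of_preconnected_of_eventuallyEq
    (hgd.analyticOnNhd hUo) hUc h2U hev
  have h3 := heq hs
  simp only [hf, hg] at h3
  have hs2 : s - 1 ≠ 0 := sub_ne_zero.2 hs1
  rw [riemannZeta_eq_inv_sub_mul hs1]
  field_simp
  linear_combination h3

end Pool.Agent.Helper91.ZM
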