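import Pool.Agent.Helper91.ZM.MEL

/-! The short interval difference and its bound. -/

set_option autoImplicit false

namespace Pool.Agent.Helper91.ZM

open MeasureTheory Set Filter Topology

/-- the primes up to `y` -/
def PY (y : ℕ) : Finset ℕ := (Finset.range (y + 1)).filter Nat.Prime

theorem PY_prime {y : ℕ} : ∀ q ∈ PY y, q.Prime := fun _ hq => (Finset.mem_filter.1 hq).2

/-- the difference -/
noncomputable def gg (P : Finset ℕ) (h x : ℝ) : ℂ := E1 P (x * Real.exp h) - E1 P x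

/-- the function on the line -/
noncomputable def GG (P : Finset ℕ) (h σ u : ℝ) : ℂ :=
  Real.exp (σ * u) • gg P h (Real.exp (-u))

theorem exp_lt {T : ℝ} (hT : 1 ≤ T) : Real.exp (1 / (2 * T)) - 1 < 1 / T := by
  have h0 : 0 < 1 / (2 * T) := by positivity
  have h1 : 1 / (2 * T) ≤ 1 / 2 := by
    apply one_div_le_one_div_of_le (by norm_num)
    linarith
  have h2 := Real.exp_bound_div_one_sub_of_interval' h0 (by linarith)
  have h3 : 1 / (1 - 1 / (2 * T)) - 1 ≤ 1 / T := by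
    have e : 1 / (2 * T) = (1 / T) / 2 := by field_simp
    rw [e] at h1 ⊢
    set w := 1 / T with hw
    have hw0 : 0 < w := by positivity
    have hw1 : w ≤ 1 := by linarith
    rw [sub_le_iff_le_add, div_le_iff₀ (by linarith)]
    nlinarith
  linarith

/-- the count in a short interval -/
theorem kap (y : ℕ) {T x : ℝ} (hT : 1 ≤ T) (hx1 : 1 ≤ x) (hxT : x ≤ T) :
    ((DP (PY y) (x * Real.exp (1 / (2 * T))) : ℝ) - DP (PY y) x) ^ 2 ≤
      ∑ n ∈ Finset.Ioc y ⌊2 * T⌋₊,
        if x < n ∧ (n : ℝ) ≤ x * Real.exp (1 / (2 * T)) then (1 : ℝ) else 0 := by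
  have hx0 : 0 < x := by linarith
  have hT0 : 0 < T := by linarith
  set X := x * Real.exp (1 / (2 * T)) with hX
  have hE1 : 1 ≤ Real.exp (1 / (2 * T)) := by
    apply Real.one_le_exp
    positivity
  have hxX : x ≤ X := by
    rw [hX]
    nlinarith
  have hXlt : X < x + 1 := by
    have h1 := exp_lt hT
    have h2 : x * (Real.exp (1 / (2 * T)) - 1) < x * (1 / T) := mul_lt_mul_of_pos_left h1 hx0
    have h3 : x * (1 / T) ≤ 1 := by
      rw [mul_one_div, div_le_one hT0]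
      exact hxT
    rw [hX]
    nlinarith
  have hfl : ⌊X⌋₊ ≤ ⌊x⌋₊ + 1 := by
    have h1 : ⌊X⌋₊ ≤ ⌊x + 1⌋₊ := Nat.floor_mono hXlt.le
    rwa [Nat.floor_add_one hx0.le] at h1
  have hfl' : ⌊x⌋₊ ≤ ⌊X⌋₊ := Nat.floor_mono hxX
  have hnn : ∀ n ∈ Finset.Ioc y ⌊2 * T⌋₊,
      (0 : ℝ) ≤ if x < n ∧ (n : ℝ) ≤ X then (1 : ℝ) else 0 := by
    intro n _
    split_ifs <;> norm_num
  rcases Nat.lt_or_ge ⌊x⌋₊ ⌊X⌋₊ with hlt | hge
  · have heq : ⌊X⌋₊ = ⌊x⌋₊ + 1 := by omega
    by_cases hc : ∀ p ∈ PY y, ¬ p ∣ ⌊x⌋₊ + 1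
    · -- one new element
      have e1 : DP (PY y) X = DP (PY y) x + 1 := by
        unfold DP
        rw [heq, ← Finset.insert_Icc_right_eq_Icc_add_one (by omega), Finset.filter_insert, if_pos hc,
          Finset.card_insert_of_notMem]
        simp
      have hn1 : x < ((⌊x⌋₊ + 1 : ℕ) : ℝ) := by
        push_cast
        exact Nat.lt_floor_add_one x
      have hn2 : ((⌊x⌋₊ + 1 : ℕ) : ℝ) ≤ X := by
        rw [← heq]
        exact Nat.floor_le (by linarith)
      have hn3 : y < ⌊x⌋₊ + 1 := by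
        by_contra hcon
        rw [not_lt] at hcon
        have h2 : ⌊x⌋₊ + 1 ≠ 1 := by
          have : 1 ≤ ⌊x⌋₊ := Nat.one_le_floor_iff x |>.2 hx1
          omega
        have hp := Nat.minFac_prime h2
        have hd := Nat.minFac_dvd (⌊x⌋₊ + 1)
        have hle : (⌊x⌋₊ + 1).minFac ≤ y := (Nat.minFac_le (by omega)).trans hcon
        exact hc _ (Finset.mem_filter.2 ⟨Finset.mem_range.2 (by omega), hp⟩) hd
      have hn4 : ⌊x⌋₊ + 1 ≤ ⌊2 * T⌋₊ := by
        rw [← heq]
        apply Nat.floor_mono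
        linarith
      have hmem : ⌊x⌋₊ + 1 ∈ Finset.Ioc y ⌊2 * T⌋₊ := Finset.mem_Ioc.2 ⟨hn3, hn4⟩
      have h5 := Finset.single_le_sum hnn hmem
      rw [if_pos ⟨hn1, hn2⟩] at h5
      rw [e1]
      push_cast
      refine le_trans (le_of_eq ?_) h5
      ring
    · have e1 : DP (PY y) X = DP (PY y) x := by
        unfold DP
        rw [heq, ← Finset.insert_Icc_right_eq_Icc_add_one (by omega), Finset.filter_insert, if_neg hc]
      rw [e1, sub_self]
      rw [zero_pow two_ne_zero]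
      exact Finset.sum_nonneg hnn
  · have heq : ⌊X⌋₊ = ⌊x⌋₊ := le_antisymm hge hfl'
    have e1 : DP (PY y) X = DP (PY y) x := by
      unfold DP
      rw [heq]
    rw [e1, sub_self]
    rw [zero_pow two_ne_zero]
    exact Finset.sum_nonneg hnn

end Pool.Agent.Helper91.ZM
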