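import Mathlib

/-! Numbers without prime factors in `P` (for the mean square of `ζ · ∏ (1 - p^(-s)) - 1`). -/

set_option autoImplicit false

namespace Pool.Agent.Helper91.ZM

open Finset

/-- the number of `n ≤ x` not divisible by an element of `P` -/
noncomputable def DP (P : Finset ℕ) (x : ℝ) : ℕ :=
  ((Icc 1 ⌊x⌋₊).filter (fun n => ∀ p ∈ P, ¬ p ∣ n)).card

/-- the density -/
noncomputable def dl (P : Finset ℕ) : ℝ := ∏ p ∈ P, (1 - 1 / (p : ℝ))

theorem DP_insert (P : Finset ℕ) (hP : ∀ q ∈ P, q.Prime) (p : ℕ) (hp : p.Prime) (hpP : p ∉ P)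
    (x : ℝ) : DP P x = DP (insert p P) x + DP P (x / p) := by
  have h1 : ((Icc 1 ⌊x⌋₊).filter (fun n => ∀ q ∈ P, ¬ q ∣ n)).card =
      (((Icc 1 ⌊x⌋₊).filter (fun n => ∀ q ∈ P, ¬ q ∣ n)).filter (fun n => ¬ p ∣ n)).card +
      (((Icc 1 ⌊x⌋₊).filter (fun n => ∀ q ∈ P, ¬ q ∣ n)).filter (fun n => ¬ ¬ p ∣ n)).card :=
    (card_filter_add_card_filter_not (fun n => ¬ p ∣ n)).symm
  have h2 : ((Icc 1 ⌊x⌋₊).filter (fun n => ∀ q ∈ P, ¬ q ∣ n)).filter (fun n => ¬ p ∣ n) =
      (Icc 1 ⌊x⌋₊).filter (fun n => ∀ q ∈ insert p P, ¬ q ∣ n) := by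
    ext n
    simp only [mem_filter, mem_insert, forall_eq_or_imp]
    tauto
  have h3 : (((Icc 1 ⌊x⌋₊).filter (fun n => ∀ q ∈ P, ¬ q ∣ n)).filter
      (fun n => ¬ ¬ p ∣ n)).card = DP P (x / p) := by
    unfold DP
    have hfl : ⌊x / (p : ℝ)⌋₊ = ⌊x⌋₊ / p := Nat.floor_div_natCast x p
    rw [hfl]
    symm
    refine card_bij (fun m _ => p * m) ?_ ?_ ?_
    · intro m hm
      simp only [mem_filter, mem_Icc] at hm ⊢
      obtain ⟨⟨hm1, hm2⟩, hm3⟩ := hm
      have hpp := hp.pos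
      refine ⟨⟨⟨?_, ?_⟩, ?_⟩, ?_⟩
      · exact Nat.mul_pos hpp hm1
      · rw [mul_comm]
        exact (Nat.le_div_iff_mul_le hpp).1 hm2
      · intro q hq hd
        rcases (hP q hq).dvd_mul.1 hd with h | h
        · have := (Nat.prime_dvd_prime_iff_eq (hP q hq) hp).1 h
          exact hpP (this ▸ hq)
        · exact hm3 q hq h
      · exact not_not.2 (dvd_mul_right p m)
    · intro a _ b _ hab
      exact Nat.eq_of_mul_eq_mul_left hp.pos hab
    · intro n hn
      simp only [mem_filter, mem_Icc, not_not] at hn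
      obtain ⟨⟨⟨hn1, hn2⟩, hn3⟩, m, rfl⟩ := hn
      refine ⟨m, ?_, rfl⟩
      simp only [mem_filter, mem_Icc]
      refine ⟨⟨?_, ?_⟩, ?_⟩
      · rcases Nat.eq_zero_or_pos m with h | h
        · subst h; simp at hn1
        · exact h
      · rw [Nat.le_div_iff_mul_le hp.pos, mul_comm]
        exact hn2
      · intro q hq hd
        exact hn3 q hq (hd.mul_left p)
  rw [h2, h3] at h1
  exact h1

theorem DP_insert' (P : Finset ℕ) (hP : ∀ q ∈ P, q.Prime) (p : ℕ) (hp : p.Prime) (hpP : p ∉ P)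
    (x : ℝ) : (DP (insert p P) x : ℝ) = (DP P x : ℝ) - DP P (x / p) := by
  rw [DP_insert P hP p hp hpP x]
  push_cast
  ring

theorem DP_le (P : Finset ℕ) {x : ℝ} (hx : 0 ≤ x) : (DP P x : ℝ) ≤ x := by
  have h1 : DP P x ≤ ⌊x⌋₊ := by
    unfold DP
    refine (card_filter_le _ _).trans ?_
    simp
  exact (Nat.cast_le.2 h1).trans (Nat.floor_le hx)

theorem DP_zero (P : Finset ℕ) {x : ℝ} (hx : x < 1) : DP P x = 0 := by
  unfold DP
  have : ⌊x⌋₊ = 0 := Nat.floor_eq_zero.2 hx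
  rw [this]
  simp

theorem dl_nonneg (P : Finset ℕ) (hP : ∀ q ∈ P, q.Prime) : 0 ≤ dl P := by
  refine prod_nonneg fun p hp => ?_
  have : (1 : ℝ) ≤ p := by exact_mod_cast (hP p hp).one_le
  have h2 : 1 / (p : ℝ) ≤ 1 := by
    rw [div_le_one (by linarith)]
    exact this
  linarith

theorem dl_le_one (P : Finset ℕ) (hP : ∀ q ∈ P, q.Prime) : dl P ≤ 1 := by
  refine prod_le_one (fun p hp => ?_) (fun p hp => ?_)
  · have : (1 : ℝ) ≤ p := by exact_mod_cast (hP p hp).one_le
    have h2 : 1 / (p : ℝ) ≤ 1 := by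
      rw [div_le_one (by linarith)]
      exact this
    linarith
  · have : 0 ≤ 1 / (p : ℝ) := by positivity
    linarith

theorem DP_bound (P : Finset ℕ) (hP : ∀ q ∈ P, q.Prime) :
    ∃ C : ℝ, 1 ≤ C ∧ ∀ x : ℝ, 0 ≤ x → |(DP P x : ℝ) - dl P * x| ≤ C := by
  classical
  induction P using Finset.induction_on with
  | empty =>
    refine ⟨1, le_refl _, fun x hx => ?_⟩
    have h1 : DP ∅ x = ⌊x⌋₊ := by
      unfold DP
      simp
    rw [h1]
    simp only [dl, prod_empty, one_mul]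
    have h2 := Nat.floor_le hx
    have h3 := Nat.lt_floor_add_one x
    rw [abs_le]
    constructor <;> linarith
  | insert p P hpP ih =>
    obtain ⟨C, hC, hb⟩ := ih (fun q hq => hP q (mem_insert_of_mem hq))
    have hp : p.Prime := hP p (mem_insert_self _ _)
    refine ⟨2 * C, by linarith, fun x hx => ?_⟩
    rw [DP_insert' P (fun q hq => hP q (mem_insert_of_mem hq)) p hp hpP]
    have hp0 : (0 : ℝ) < p := by exact_mod_cast hp.pos
    have e1 : dl (insert p P) = (1 - 1 / (p : ℝ)) * dl P := by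
      unfold dl
      rw [prod_insert hpP]
    have h1 := hb x hx
    have h2 := hb (x / p) (by positivity)
    have e2 : (DP P x : ℝ) - DP P (x / p) - dl (insert p P) * x =
        ((DP P x : ℝ) - dl P * x) - ((DP P (x / p) : ℝ) - dl P * (x / p)) := by
      rw [e1]
      field_simp
      ring
    rw [e2]
    refine (abs_sub _ _).trans ?_
    linarith

theorem DP_mono (P : Finset ℕ) {x y : ℝ} (h : x ≤ y) : DP P x ≤ DP P y := by
  unfold DP
  refine card_le_card (filter_subset_filter _ ?_)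
  exact Icc_subset_Icc_right (Nat.floor_mono h)

theorem DP_one (P : Finset ℕ) (hP : ∀ q ∈ P, q.Prime) {x : ℝ} (h1 : 1 ≤ x) (h2 : x < 2) :
    DP P x = 1 := by
  unfold DP
  have : ⌊x⌋₊ = 1 := by
    rw [Nat.floor_eq_iff (by linarith)]
    constructor
    · simpa using h1
    · norm_num
      exact h2
  rw [this]
  have e : (Icc 1 1).filter (fun n => ∀ p ∈ P, ¬ p ∣ n) = {1} := by
    ext n
    simp only [Icc_self, mem_filter, mem_singleton]
    constructor
    · exact fun h => h.1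
    · intro h
      refine ⟨h, fun p hp hd => ?_⟩
      rw [h] at hd
      exact (hP p hp).one_lt.ne' (Nat.dvd_one.1 hd)
  rw [e]
  simp

theorem DP_measurable (P : Finset ℕ) : Measurable (fun x : ℝ => (DP P x : ℝ)) := by
  have h1 : Measurable (fun n : ℕ => (((Icc 1 n).filter (fun n => ∀ p ∈ P, ¬ p ∣ n)).card : ℝ)) :=
    measurable_of_countable _
  exact h1.comp Nat.measurable_floor

end Pool.Agent.Helper91.ZM
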