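import Pool.Agent.Helper91.ZM.PTW
import Pool.Agent.Helper24.MR.PLA

/-! The integral of the dominating function and Plancherel. -/

set_option autoImplicit false

namespace Pool.Agent.Helper91.ZM

open MeasureTheory Set Filter Topology

theorem Phi_int (y : ℕ) {ε T C : ℝ} (hε : 0 < ε) (hε2 : ε < 1 / 2) (hT : 1 ≤ T) :
    Integrable (Phi y ε T C) ∧ ∫ u, Phi y ε T C u ≤
      (16 * dl (PY y) ^ 2 + 8 * ∑ n ∈ Finset.Ioc y ⌊2 * T⌋₊, (n : ℝ) ^ (-(1 + 2 * ε))) / T +
      (2 / (1 - 2 * ε) + 4 * C ^ 2) * T ^ (-(1 + 2 * ε)) := by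
  have hT0 : 0 < T := by linarith
  have hh0 : 0 < 1 / (2 * T) := by positivity
  -- the four parts
  have i1 : Integrable ((Ioc (0 : ℝ) (1 / (2 * T))).indicator
      (fun _ => 32 * dl (PY y) ^ 2)) := by
    rw [integrable_indicator_iff measurableSet_Ioc]
    exact integrableOn_const (by simp) enorm_ne_top
  have i2' : ∀ n ∈ Finset.Ioc y ⌊2 * T⌋₊, Integrable
      ((Ioc (-Real.log n) (1 / (2 * T) - Real.log n)).indicator
        (fun _ => 16 * (n : ℝ) ^ (-(1 + 2 * ε)))) := by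
    intro n _
    rw [integrable_indicator_iff measurableSet_Ioc]
    exact integrableOn_const (by simp) enorm_ne_top
  have i2 : Integrable (fun u => ∑ n ∈ Finset.Ioc y ⌊2 * T⌋₊,
      (Ioc (-Real.log n) (1 / (2 * T) - Real.log n)).indicator
        (fun _ => 16 * (n : ℝ) ^ (-(1 + 2 * ε))) u) := integrable_finsetSum _ i2'
  have ha : 2 * ε - 1 < 0 := by linarith
  have hb : 0 < 1 + 2 * ε := by linarith
  have i3 : Integrable ((Ioi (-Real.log T)).indicator
      (fun u => 2 / T ^ 2 * Real.exp ((2 * ε - 1) * u))) := by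
    rw [integrable_indicator_iff measurableSet_Ioi]
    exact (integrableOn_exp_mul_Ioi ha _).const_mul _
  have i4 : Integrable ((Iic (-Real.log T)).indicator
      (fun u => 4 * C ^ 2 * Real.exp ((1 + 2 * ε) * u))) := by
    rw [integrable_indicator_iff measurableSet_Iic]
    exact (integrableOn_exp_mul_Iic hb _).const_mul _
  have e1 : ∫ u, (Ioc (0 : ℝ) (1 / (2 * T))).indicator (fun _ => 32 * dl (PY y) ^ 2) u =
      16 * dl (PY y) ^ 2 / T := by
    rw [integral_indicator measurableSet_Ioc, setIntegral_const, Measure.real, Real.volume_Ioc,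
      ENNReal.toReal_ofReal (by linarith), smul_eq_mul]
    field_simp
    ring
  have e2 : ∫ u, ∑ n ∈ Finset.Ioc y ⌊2 * T⌋₊,
      (Ioc (-Real.log n) (1 / (2 * T) - Real.log n)).indicator
        (fun _ => 16 * (n : ℝ) ^ (-(1 + 2 * ε))) u =
      8 * (∑ n ∈ Finset.Ioc y ⌊2 * T⌋₊, (n : ℝ) ^ (-(1 + 2 * ε))) / T := by
    rw [integral_finsetSum _ i2', Finset.mul_sum, Finset.sum_div]
    refine Finset.sum_congr rfl fun n _ => ?_
    rw [integral_indicator measurableSet_Ioc, setIntegral_const, Measure.real, Real.volume_Ioc,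
      ENNReal.toReal_ofReal (by linarith), smul_eq_mul]
    field_simp
    ring
  have e3 : ∫ u, (Ioi (-Real.log T)).indicator
      (fun u => 2 / T ^ 2 * Real.exp ((2 * ε - 1) * u)) u =
      2 / (1 - 2 * ε) * T ^ (-(1 + 2 * ε)) := by
    rw [integral_indicator measurableSet_Ioi, integral_const_mul, integral_exp_mul_Ioi ha]
    have h1 : Real.exp ((2 * ε - 1) * -Real.log T) = T ^ (-(1 + 2 * ε)) * T ^ 2 := by
      rw [← Real.rpow_natCast T 2, ← Real.rpow_add hT0, Real.rpow_def_of_pos hT0]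
      congr 1
      push_cast
      ring
    rw [h1]
    have h2 : 2 * ε - 1 ≠ 0 := ha.ne
    have h3 : 1 - 2 * ε ≠ 0 := by linarith [ha] |> fun h : 0 < 1 - 2 * ε => h.ne'
    have h4 : (2 * ε - 1) = -(1 - 2 * ε) := by ring
    rw [h4]
    field_simp
  have e4 : ∫ u, (Iic (-Real.log T)).indicator
      (fun u => 4 * C ^ 2 * Real.exp ((1 + 2 * ε) * u)) u ≤ 4 * C ^ 2 * T ^ (-(1 + 2 * ε)) := by
    rw [integral_indicator measurableSet_Iic, integral_const_mul, integral_exp_mul_Iic hb]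
    have h1 : Real.exp ((1 + 2 * ε) * -Real.log T) = T ^ (-(1 + 2 * ε)) := by
      rw [Real.rpow_def_of_pos hT0]
      congr 1
      ring
    rw [h1]
    refine mul_le_mul_of_nonneg_left ?_ (by positivity)
    exact div_le_self (by positivity) (by linarith)
  have hI : Integrable (Phi y ε T C) := ((i1.add i2).add i3).add i4
  refine ⟨hI, ?_⟩
  have hsum : ∫ u, Phi y ε T C u =
      (∫ u, (Ioc (0 : ℝ) (1 / (2 * T))).indicator (fun _ => 32 * dl (PY y) ^ 2) u) +
      (∫ u, ∑ n ∈ Finset.Ioc y ⌊2 * T⌋₊,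
        (Ioc (-Real.log n) (1 / (2 * T) - Real.log n)).indicator
          (fun _ => 16 * (n : ℝ) ^ (-(1 + 2 * ε))) u) +
      (∫ u, (Ioi (-Real.log T)).indicator
        (fun u => 2 / T ^ 2 * Real.exp ((2 * ε - 1) * u)) u) +
      (∫ u, (Iic (-Real.log T)).indicator
        (fun u => 4 * C ^ 2 * Real.exp ((1 + 2 * ε) * u)) u) := by
    have j1 := integral_add (i1.add i2 |>.add i3) i4
    have j2 := integral_add (i1.add i2) i3
    have j3 := integral_add i1 i2
    simp only [Pi.add_apply] at j1 j2 j3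
    unfold Phi
    rw [j1, j2, j3]
  rw [hsum, e1, e2, e3]
  have : (16 * dl (PY y) ^ 2 + 8 * ∑ n ∈ Finset.Ioc y ⌊2 * T⌋₊, (n : ℝ) ^ (-(1 + 2 * ε))) / T =
      16 * dl (PY y) ^ 2 / T +
      8 * (∑ n ∈ Finset.Ioc y ⌊2 * T⌋₊, (n : ℝ) ^ (-(1 + 2 * ε))) / T := by ring
  rw [this, add_mul]
  linarith

theorem GG_integrable (y : ℕ) {T C σ : ℝ} (hT : 1 ≤ T)
    (hC : ∀ x, ‖E1 (PY y) x‖ ≤ C) (hσ : 0 < σ) :
    Integrable (GG (PY y) (1 / (2 * T)) σ) := by
  have hh0 : 0 < 1 / (2 * T) := by positivity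
  have i1 : Integrable ((Iic (1 / (2 * T))).indicator (fun u => 2 * C * Real.exp (σ * u))) := by
    rw [integrable_indicator_iff measurableSet_Iic]
    exact (integrableOn_exp_mul_Iic hσ _).const_mul _
  refine i1.mono' (GG_meas _ _ _).aestronglyMeasurable (Eventually.of_forall fun u => ?_)
  rw [GG_norm]
  rcases lt_or_ge (1 / (2 * T)) u with hu | hu
  · rw [gg_zero _ hh0 hu, norm_zero, mul_zero]
    rw [indicator_of_notMem (show u ∉ Iic (1 / (2 * T)) from not_le.2 hu)]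
  · rw [indicator_of_mem (show u ∈ Iic (1 / (2 * T)) from hu), mul_comm]
    refine mul_le_mul_of_nonneg_right ?_ (Real.exp_pos _).le
    unfold gg
    refine (norm_sub_le _ _).trans ?_
    have := hC (Real.exp (-u) * Real.exp (1 / (2 * T)))
    have := hC (Real.exp (-u))
    linarith

theorem GG_sq (y : ℕ) {ε T C σ : ℝ} (hε : 0 < ε) (hε2 : ε < 1 / 2) (hT : 1 ≤ T)
    (hC : ∀ x, ‖E1 (PY y) x‖ ≤ C) (hσ1 : 1 / 2 + ε ≤ σ) (hσ2 : σ ≤ 2) :
    MemLp (GG (PY y) (1 / (2 * T)) σ) 2 ∧ ∫ u, ‖GG (PY y) (1 / (2 * T)) σ u‖ ^ 2 ≤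
      (16 * dl (PY y) ^ 2 + 8 * ∑ n ∈ Finset.Ioc y ⌊2 * T⌋₊, (n : ℝ) ^ (-(1 + 2 * ε))) / T +
      (2 / (1 - 2 * ε) + 4 * C ^ 2) * T ^ (-(1 + 2 * ε)) := by
  obtain ⟨h1, h2⟩ := Phi_int y (C := C) hε hε2 hT
  have h3 := fun u => pt_bound y hε hT hC hσ1 hσ2 u
  have hm := (GG_meas (PY y) (1 / (2 * T)) σ).aestronglyMeasurable (μ := volume)
  have h4 : Integrable (fun u => ‖GG (PY y) (1 / (2 * T)) σ u‖ ^ 2) := by
    refine h1.mono' (hm.norm.pow 2) (Eventually.of_forall fun u => ?_)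
    rw [Real.norm_eq_abs, abs_of_nonneg (sq_nonneg _)]
    exact h3 u
  exact ⟨(memLp_two_iff_integrable_sq_norm hm).2 h4, (integral_mono h4 h1 h3).trans h2⟩

end Pool.Agent.Helper91.ZM
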