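import Pool.Agent.Helper91.ZM.INT

/-! The mean square of `ζ(s) ∏_{p ≤ y} (1 - p^(-s)) - 1` on vertical lines `re s > 1/2`. -/

set_option autoImplicit false

namespace Pool.Agent.Helper91.ZM

open MeasureTheory Set Filter Topology Complex
open scoped FourierTransform

theorem mel_gg (P : Finset ℕ) (hP : ∀ q ∈ P, q.Prime) (h : ℝ) {s : ℂ} (hs : 0 < s.re) :
    mellin (gg P h) (-s) = (Complex.exp (h * s) - 1) * mellin (E1 P) (-s) := by
  have c1 := E1_conv P hP hs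
  have hE : 0 < Real.exp h := Real.exp_pos h
  have c2 : MellinConvergent (fun x => E1 P (x * Real.exp h)) (-s) := by
    have := (MellinConvergent.comp_mul_left (f := E1 P) (s := -s) hE).2 c1
    simpa only [mul_comm] using this
  have e1 : gg P h = fun x => E1 P (x * Real.exp h) - E1 P x := rfl
  rw [e1, (hasMellin_sub c2 c1).2, mellin_comp_mul_right _ _ hE, neg_neg]
  have e2 : ((Real.exp h : ℝ) : ℂ) ^ s = Complex.exp (h * s) := by
    rw [Complex.cpow_def_of_ne_zero (by exact_mod_cast hE.ne'), ← Complex.ofReal_log hE.le,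
      Real.log_exp]
  rw [e2, smul_eq_mul]
  ring

theorem mel_four (P : Finset ℕ) (h σ t : ℝ) :
    mellin (gg P h) (-((σ : ℂ) + t * I)) = 𝓕 (GG P h σ) (-(2 * Real.pi)⁻¹ * t) := by
  rw [mellin_eq_fourier]
  have e1 : (fun u : ℝ => Real.exp (-(-((σ : ℂ) + t * I)).re * u) • gg P h (Real.exp (-u))) =
      GG P h σ := by
    funext u
    unfold GG
    congr 2
    simp
  have e2 : (-((σ : ℂ) + t * I)).im / (2 * Real.pi) = -(2 * Real.pi)⁻¹ * t := by
    simp
    ring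
  rw [e1, e2]

theorem fac_bound {T σ t : ℝ} (hT : 1 ≤ T) (hσ0 : 0 < σ) (hσ2 : σ ≤ 2) (ht1 : T ≤ t)
    (ht2 : t ≤ 2 * T) :
    ‖(σ : ℂ) + t * I‖ ≤ 16 * T * ‖Complex.exp ((1 / (2 * T) : ℝ) * ((σ : ℂ) + t * I)) - 1‖ := by
  have hT0 : 0 < T := by linarith
  set h := 1 / (2 * T) with hh
  have hh0 : 0 < h := by rw [hh]; positivity
  have h1 : ‖(σ : ℂ) + t * I‖ ≤ 4 * T := by
    refine (norm_add_le _ _).trans ?_
    rw [norm_mul, Complex.norm_I, mul_one, Complex.norm_real, Complex.norm_real,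
      Real.norm_eq_abs, Real.norm_eq_abs, abs_of_pos hσ0, abs_of_pos (by linarith : 0 < t)]
    linarith
  have h2 : (1 : ℝ) / 4 ≤ ‖Complex.exp ((h : ℝ) * ((σ : ℂ) + t * I)) - 1‖ := by
    have h3 : (Complex.exp ((h : ℝ) * ((σ : ℂ) + t * I)) - 1).im =
        Real.exp (h * σ) * Real.sin (h * t) := by
      rw [Complex.sub_im, Complex.exp_im]
      simp
    have h4 : (1 : ℝ) / 2 ≤ h * t := by
      rw [hh, one_div_mul_eq_div, le_div_iff₀ (by positivity)]
      linarith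
    have h5 : h * t ≤ 1 := by
      rw [hh, one_div_mul_eq_div, div_le_one (by positivity)]
      exact ht2
    have hpi := Real.pi_gt_three
    have hpi4 := Real.pi_le_four
    have h6 : 2 / Real.pi * (h * t) ≤ Real.sin (h * t) :=
      Real.mul_le_sin (by linarith) (by linarith)
    have h7 : (1 : ℝ) / 4 ≤ Real.sin (h * t) := by
      refine le_trans ?_ h6
      have h8 : (1 : ℝ) / 2 ≤ 2 / Real.pi := by
        rw [div_le_div_iff₀ (by norm_num) Real.pi_pos]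
        linarith
      have := mul_le_mul h8 h4 (by norm_num) (by positivity)
      linarith
    have h9 : 1 ≤ Real.exp (h * σ) := Real.one_le_exp (by positivity)
    have h10 : (1 : ℝ) / 4 ≤ (Complex.exp ((h : ℝ) * ((σ : ℂ) + t * I)) - 1).im := by
      rw [h3]
      nlinarith
    exact h10.trans ((le_abs_self _).trans (Complex.abs_im_le_norm _))
  nlinarith

/-- mean square of `s · mellin E1` -/
theorem msq1 (y : ℕ) {ε T C σ : ℝ} (hε : 0 < ε) (hε2 : ε < 1 / 2) (hT : 1 ≤ T)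
    (hC : ∀ x, ‖E1 (PY y) x‖ ≤ C) (hσ1 : 1 / 2 + ε ≤ σ) (hσ2 : σ ≤ 2) :
    ∫ t in T..2 * T, ‖((σ : ℂ) + t * I) * mellin (E1 (PY y)) (-((σ : ℂ) + t * I))‖ ^ 2 ≤
      256 * T ^ 2 * (8 * ((16 * dl (PY y) ^ 2 +
        8 * ∑ n ∈ Finset.Ioc y ⌊2 * T⌋₊, (n : ℝ) ^ (-(1 + 2 * ε))) / T +
      (2 / (1 - 2 * ε) + 4 * C ^ 2) * T ^ (-(1 + 2 * ε)))) := by
  have hT0 : 0 < T := by linarith
  have hσ0 : 0 < σ := by linarith
  obtain ⟨hm, hb⟩ := GG_sq y hε hε2 hT hC hσ1 hσ2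
  have hi := GG_integrable y hT hC hσ0
  have hpl := Pool.Agent.Helper40.MR.pla_plancherel_int _ hi hm
  set G := GG (PY y) (1 / (2 * T)) σ with hG
  set B := (16 * dl (PY y) ^ 2 +
        8 * ∑ n ∈ Finset.Ioc y ⌊2 * T⌋₊, (n : ℝ) ^ (-(1 + 2 * ε))) / T +
      (2 / (1 - 2 * ε) + 4 * C ^ 2) * T ^ (-(1 + 2 * ε)) with hB
  -- the transform
  have hcont : Continuous (𝓕 G) := Pool.Agent.Helper40.MR.pla_continuous_fourier _ hi
  have hF2 : MemLp (𝓕 G) 2 volume := by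
    refine ⟨hcont.aestronglyMeasurable, ?_⟩
    rw [Pool.Agent.Helper40.MR.pla_plancherel G hi hm]
    exact hm.2
  have hFi : Integrable (fun x => ‖𝓕 G x‖ ^ 2) :=
    (memLp_two_iff_integrable_sq_norm hcont.aestronglyMeasurable).1 hF2
  set c : ℝ := -(2 * Real.pi)⁻¹ with hc
  have hc0 : c ≠ 0 := by
    rw [hc]
    exact neg_ne_zero.2 (inv_ne_zero (by positivity))
  have hFc : Integrable (fun t => ‖𝓕 G (c * t)‖ ^ 2) := hFi.comp_mul_left' hc0
  have h1 : ∫ t, ‖𝓕 G (c * t)‖ ^ 2 = |c⁻¹| • ∫ x, ‖𝓕 G x‖ ^ 2 :=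
    Measure.integral_comp_mul_left (fun x => ‖𝓕 G x‖ ^ 2) c
  have hcabs : |c⁻¹| ≤ 8 := by
    rw [hc, inv_neg, inv_inv, abs_neg, abs_of_pos (by positivity)]
    linarith [Real.pi_le_four]
  have h2 : ∫ t, ‖𝓕 G (c * t)‖ ^ 2 ≤ 8 * B := by
    rw [h1, smul_eq_mul, ← hpl]
    exact mul_le_mul hcabs hb (integral_nonneg fun _ => by positivity) (by norm_num)
  have h3 : ∫ t in T..2 * T, ‖𝓕 G (c * t)‖ ^ 2 ≤ 8 * B := by
    rw [intervalIntegral.integral_of_le (by linarith)]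
    exact (setIntegral_le_integral hFc (Eventually.of_forall fun _ => by positivity)).trans h2
  -- pointwise
  have hpt : ∀ t ∈ Icc T (2 * T),
      ‖((σ : ℂ) + t * I) * mellin (E1 (PY y)) (-((σ : ℂ) + t * I))‖ ^ 2 ≤
        256 * T ^ 2 * ‖𝓕 G (c * t)‖ ^ 2 := by
    intro t ht
    have hre : 0 < ((σ : ℂ) + t * I).re := by simpa using hσ0
    have e1 := mel_four (PY y) (1 / (2 * T)) σ t
    rw [mel_gg (PY y) PY_prime _ hre] at e1
    have hfb := fac_bound hT hσ0 hσ2 ht.1 ht.2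
    rw [← hG, ← hc] at e1
    rw [← e1, norm_mul, norm_mul, mul_pow, mul_pow]
    have h4 := pow_le_pow_left₀ (norm_nonneg _) hfb 2
    have h5 : (16 * T * ‖Complex.exp ((1 / (2 * T) : ℝ) * ((σ : ℂ) + t * I)) - 1‖) ^ 2 =
        256 * T ^ 2 * ‖Complex.exp ((1 / (2 * T) : ℝ) * ((σ : ℂ) + t * I)) - 1‖ ^ 2 := by ring
    rw [h5] at h4
    have h6 := mul_le_mul_of_nonneg_right h4
      (sq_nonneg ‖mellin (E1 (PY y)) (-((σ : ℂ) + t * I))‖)
    exact h6.trans (le_of_eq (by ring))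
  have hcl : Continuous (fun t : ℝ => (σ : ℂ) + t * I) := by fun_prop
  have hcE : Continuous (fun t : ℝ => mellin (E1 (PY y)) (-((σ : ℂ) + t * I))) := by
    rw [continuous_iff_continuousAt]
    intro t
    have hre : 0 < ((σ : ℂ) + t * I).re := by simpa using hσ0
    have h7 := (E1_diff (PY y) PY_prime hre).continuousAt
    exact ContinuousAt.comp (f := fun t : ℝ => (σ : ℂ) + t * I) h7 hcl.continuousAt
  have h8 : ∫ t in T..2 * T, ‖((σ : ℂ) + t * I) * mellin (E1 (PY y)) (-((σ : ℂ) + t * I))‖ ^ 2 ≤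
      ∫ t in T..2 * T, 256 * T ^ 2 * ‖𝓕 G (c * t)‖ ^ 2 := by
    refine intervalIntegral.integral_mono_on (by linarith) ?_ ?_ hpt
    · exact ((hcl.mul hcE).norm.pow 2).intervalIntegrable _ _
    · exact ((((hcont.comp (continuous_const.mul continuous_id)).norm.pow 2)).const_mul
        _).intervalIntegrable _ _
  refine h8.trans ?_
  rw [intervalIntegral.integral_const_mul]
  exact mul_le_mul_of_nonneg_left h3 (by positivity)

end Pool.Agent.Helper91.ZM
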