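import Pool.Agent.Helper91.ZM.BND

/-! Pointwise bound for the function on the line and its integral. -/

set_option autoImplicit false

namespace Pool.Agent.Helper91.ZM

open MeasureTheory Set Filter Topology

theorem gg_meas (P : Finset ℕ) (h : ℝ) : Measurable (gg P h) := by
  unfold gg
  exact ((E1_meas P).comp (measurable_id.mul_const _)).sub (E1_meas P)

theorem GG_meas (P : Finset ℕ) (h σ : ℝ) : Measurable (GG P h σ) := by
  have h1 : Measurable (fun u : ℝ => Real.exp (σ * u)) :=
    Real.measurable_exp.comp (measurable_id.const_mul σ)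
  have h2 : Measurable (fun u : ℝ => gg P h (Real.exp (-u))) :=
    (gg_meas P h).comp (Real.measurable_exp.comp measurable_neg)
  exact h1.smul h2

theorem GG_norm (P : Finset ℕ) (h σ u : ℝ) :
    ‖GG P h σ u‖ = Real.exp (σ * u) * ‖gg P h (Real.exp (-u))‖ := by
  unfold GG
  rw [norm_smul, Real.norm_eq_abs, abs_of_pos (Real.exp_pos _)]

theorem gg_zero (P : Finset ℕ) {h u : ℝ} (hh : 0 < h) (hu : h < u) :
    gg P h (Real.exp (-u)) = 0 := by
  unfold gg
  rw [E1_zero P, E1_zero P, sub_zero]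
  · rw [Real.exp_lt_one_iff]
    linarith
  · rw [← Real.exp_add, Real.exp_lt_one_iff]
    linarith

theorem exp_two_le {σ h u : ℝ} (h1 : 0 ≤ σ) (h2 : σ ≤ 2) (hh1 : h ≤ 1 / 2)
    (hu : u ≤ h) : Real.exp (2 * σ * u) ≤ 8 := by
  have h3 : 2 * σ * u ≤ 2 := by
    have h4 : 2 * σ * u ≤ 2 * σ * h := mul_le_mul_of_nonneg_left hu (by linarith)
    have h5 : 2 * σ * h ≤ 2 * σ * (1 / 2) := mul_le_mul_of_nonneg_left hh1 (by linarith)
    linarith
  have h6 : Real.exp (2 * σ * u) ≤ Real.exp 2 := Real.exp_le_exp.2 h3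
  have h7 : Real.exp 2 = Real.exp 1 * Real.exp 1 := by
    rw [← Real.exp_add]
    norm_num
  have h8 := Real.exp_one_lt_d9
  have h9 : 0 < Real.exp 1 := Real.exp_pos 1
  nlinarith

/-- the dominating function -/
noncomputable def Phi (y : ℕ) (ε T C u : ℝ) : ℝ :=
  (Ioc (0 : ℝ) (1 / (2 * T))).indicator (fun _ => 32 * dl (PY y) ^ 2) u +
  (∑ n ∈ Finset.Ioc y ⌊2 * T⌋₊, (Ioc (-Real.log n) (1 / (2 * T) - Real.log n)).indicator
    (fun _ => 16 * (n : ℝ) ^ (-(1 + 2 * ε))) u) +
  (Ioi (-Real.log T)).indicator (fun u => 2 / T ^ 2 * Real.exp ((2 * ε - 1) * u)) u +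
  (Iic (-Real.log T)).indicator (fun u => 4 * C ^ 2 * Real.exp ((1 + 2 * ε) * u)) u

theorem sq_exp (σ u : ℝ) : Real.exp (σ * u) ^ 2 = Real.exp (2 * σ * u) := by
  rw [← Real.exp_nat_mul]
  congr 1
  push_cast
  ring

theorem pt_bound (y : ℕ) {ε T C σ : ℝ} (hε : 0 < ε) (hT : 1 ≤ T)
    (hC : ∀ x, ‖E1 (PY y) x‖ ≤ C) (hσ1 : 1 / 2 + ε ≤ σ) (hσ2 : σ ≤ 2) (u : ℝ) :
    ‖GG (PY y) (1 / (2 * T)) σ u‖ ^ 2 ≤ Phi y ε T C u := by
  set h := 1 / (2 * T) with hh
  set P := PY y with hPdef
  have hP : ∀ q ∈ P, q.Prime := PY_prime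
  have hT0 : 0 < T := by linarith
  have hh0 : 0 < h := by rw [hh]; positivity
  have hh1 : h ≤ 1 / 2 := by
    rw [hh]
    apply one_div_le_one_div_of_le (by norm_num)
    linarith
  have hδ0 := dl_nonneg P hP
  have hδ1 := dl_le_one P hP
  have hσ0 : 0 < σ := by linarith
  -- nonnegativity of the four parts
  have n1 : 0 ≤ (Ioc (0 : ℝ) h).indicator (fun _ => 32 * dl P ^ 2) u :=
    indicator_nonneg (fun _ _ => by positivity) _
  have n2 : 0 ≤ ∑ n ∈ Finset.Ioc y ⌊2 * T⌋₊, (Ioc (-Real.log n) (h - Real.log n)).indicator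
      (fun _ => 16 * (n : ℝ) ^ (-(1 + 2 * ε))) u :=
    Finset.sum_nonneg fun n _ => indicator_nonneg (fun _ _ => by positivity) _
  have n3 : 0 ≤ (Ioi (-Real.log T)).indicator
      (fun u => 2 / T ^ 2 * Real.exp ((2 * ε - 1) * u)) u :=
    indicator_nonneg (fun _ _ => by positivity) _
  have n4 : 0 ≤ (Iic (-Real.log T)).indicator
      (fun u => 4 * C ^ 2 * Real.exp ((1 + 2 * ε) * u)) u :=
    indicator_nonneg (fun _ _ => by positivity) _
  have hlogT : 0 ≤ Real.log T := Real.log_nonneg hT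
  have hPhi : Phi y ε T C u = (Ioc (0 : ℝ) h).indicator (fun _ => 32 * dl P ^ 2) u +
      (∑ n ∈ Finset.Ioc y ⌊2 * T⌋₊, (Ioc (-Real.log n) (h - Real.log n)).indicator
        (fun _ => 16 * (n : ℝ) ^ (-(1 + 2 * ε))) u) +
      (Ioi (-Real.log T)).indicator (fun u => 2 / T ^ 2 * Real.exp ((2 * ε - 1) * u)) u +
      (Iic (-Real.log T)).indicator (fun u => 4 * C ^ 2 * Real.exp ((1 + 2 * ε) * u)) u := rfl
  rw [hPhi, GG_norm, mul_pow, sq_exp]
  rcases lt_or_ge h u with hu | hu
  · -- far right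
    rw [gg_zero P hh0 hu, norm_zero]
    have : (0 : ℝ) ^ 2 = 0 := by norm_num
    rw [this, mul_zero]
    linarith
  rcases lt_or_ge 0 u with hu0 | hu0
  · -- `0 < u ≤ h`
    have e1 : gg P h (Real.exp (-u)) = ((-(dl P * Real.exp (h - u)) : ℝ) : ℂ) := by
      unfold gg
      have hx1 : Real.exp (-u) < 1 := by
        rw [Real.exp_lt_one_iff]
        linarith
      have hx2 : Real.exp (-u) * Real.exp h = Real.exp (h - u) := by
        rw [← Real.exp_add]
        congr 1
        ring
      have hx3 : 1 ≤ Real.exp (h - u) := Real.one_le_exp (by linarith)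
      have hx4 : Real.exp (h - u) < 2 := by
        have h1 : Real.exp (h - u) < Real.exp h := Real.exp_lt_exp.2 (by linarith)
        have h2 := exp_lt hT
        have h3 : 1 / T ≤ 1 := by
          rw [div_le_one hT0]
          exact hT
        rw [← hh] at h2
        linarith
      rw [E1_zero P hx1, hx2, E1_of_ge P hx3, DP_one P hP hx3 hx4, sub_zero]
      congr 1
      push_cast
      ring
    rw [e1, Complex.norm_real, Real.norm_eq_abs, sq_abs]
    have hx4 : Real.exp (h - u) ≤ 2 := by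
      have h1 : Real.exp (h - u) ≤ Real.exp h := Real.exp_le_exp.2 (by linarith)
      have h2 := exp_lt hT
      have h3 : 1 / T ≤ 1 := by
        rw [div_le_one hT0]
        exact hT
      rw [← hh] at h2
      linarith
    have hx5 : 0 < Real.exp (h - u) := Real.exp_pos _
    have h8 := exp_two_le hσ0.le hσ2 hh1 hu
    have h9 : (-(dl P * Real.exp (h - u))) ^ 2 ≤ 4 * dl P ^ 2 := by
      have : (-(dl P * Real.exp (h - u))) ^ 2 = dl P ^ 2 * Real.exp (h - u) ^ 2 := by ring
      rw [this]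
      have h10 : Real.exp (h - u) ^ 2 ≤ 4 := by nlinarith
      nlinarith [sq_nonneg (dl P)]
    have hmem : u ∈ Ioc (0 : ℝ) h := ⟨hu0, hu⟩
    have e2 : (Ioc (0 : ℝ) h).indicator (fun _ => 32 * dl P ^ 2) u = 32 * dl P ^ 2 :=
      indicator_of_mem hmem _
    have h11 : Real.exp (2 * σ * u) * (-(dl P * Real.exp (h - u))) ^ 2 ≤ 8 * (4 * dl P ^ 2) :=
      mul_le_mul h8 h9 (sq_nonneg _) (by norm_num)
    rw [e2]
    linarith
  rcases lt_or_ge (-Real.log T) u with huT | huT
  · -- the middle range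
    set x := Real.exp (-u) with hx
    have hx1 : 1 ≤ x := Real.one_le_exp (by linarith)
    have hxT : x ≤ T := by
      rw [hx, ← Real.exp_log hT0]
      apply Real.exp_le_exp.2
      linarith
    have hk := kap y hT hx1 hxT
    rw [← hh, ← hPdef] at hk
    have hX1 : 1 ≤ x * Real.exp h := by
      have : 1 ≤ Real.exp h := Real.one_le_exp hh0.le
      nlinarith
    set k : ℝ := (DP P (x * Real.exp h) : ℝ) - DP P x with hkdef
    have e1 : gg P h x = ((k - dl P * (x * (Real.exp h - 1)) : ℝ) : ℂ) := by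
      unfold gg
      rw [E1_of_ge P hX1, E1_of_ge P hx1, ← Complex.ofReal_sub, hkdef]
      congr 1
      ring
    have hx0 : 0 < x := by linarith
    have hE : 0 ≤ Real.exp h - 1 := by
      have : 1 ≤ Real.exp h := Real.one_le_exp hh0.le
      linarith
    have hE2 : Real.exp h - 1 ≤ 1 / T := by
      have := exp_lt hT
      rw [← hh] at this
      exact this.le
    have h1 : ‖gg P h x‖ ^ 2 ≤ 2 * k ^ 2 + 2 * (x ^ 2 / T ^ 2) := by
      rw [e1, Complex.norm_real, Real.norm_eq_abs, sq_abs]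
      have h2 : 0 ≤ dl P * (x * (Real.exp h - 1)) := by positivity
      have h3 : dl P * (x * (Real.exp h - 1)) ≤ x / T := by
        have h4 : x * (Real.exp h - 1) ≤ x * (1 / T) := mul_le_mul_of_nonneg_left hE2 hx0.le
        have h5 : dl P * (x * (Real.exp h - 1)) ≤ 1 * (x * (Real.exp h - 1)) :=
          mul_le_mul_of_nonneg_right hδ1 (by positivity)
        calc dl P * (x * (Real.exp h - 1)) ≤ x * (1 / T) := by linarith
          _ = x / T := by ring
      have h6 : (dl P * (x * (Real.exp h - 1))) ^ 2 ≤ x ^ 2 / T ^ 2 := by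
        rw [← div_pow]
        exact pow_le_pow_left₀ h2 h3 2
      nlinarith [sq_nonneg (k + dl P * (x * (Real.exp h - 1)))]
    have hpos : 0 ≤ Real.exp (2 * σ * u) := (Real.exp_pos _).le
    have h7 : Real.exp (2 * σ * u) * ‖gg P h x‖ ^ 2 ≤
        Real.exp (2 * σ * u) * (2 * k ^ 2) + Real.exp (2 * σ * u) * (2 * (x ^ 2 / T ^ 2)) := by
      rw [← mul_add]
      exact mul_le_mul_of_nonneg_left h1 hpos
    -- the first part
    have h8 : Real.exp (2 * σ * u) * (2 * k ^ 2) ≤
        ∑ n ∈ Finset.Ioc y ⌊2 * T⌋₊, (Ioc (-Real.log n) (h - Real.log n)).indicator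
          (fun _ => 16 * (n : ℝ) ^ (-(1 + 2 * ε))) u := by
      have h9 : Real.exp (2 * σ * u) * (2 * k ^ 2) ≤ Real.exp (2 * σ * u) * (2 *
          ∑ n ∈ Finset.Ioc y ⌊2 * T⌋₊, if x < n ∧ (n : ℝ) ≤ x * Real.exp h then (1 : ℝ) else 0) :=
        mul_le_mul_of_nonneg_left (by linarith) hpos
      refine h9.trans ?_
      rw [Finset.mul_sum, Finset.mul_sum]
      refine Finset.sum_le_sum fun n hn => ?_
      rw [Finset.mem_Ioc] at hn
      have hn0 : 0 < n := by omega
      have hnr : (0 : ℝ) < n := by exact_mod_cast hn0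
      split_ifs with hif
      · have g1 : -Real.log n < u := by
          have : Real.log x < Real.log n := Real.log_lt_log hx0 hif.1
          rw [hx, Real.log_exp] at this
          linarith
        have g2 : u ≤ h - Real.log n := by
          have : Real.log n ≤ Real.log (x * Real.exp h) := Real.log_le_log hnr hif.2
          rw [hx, ← Real.exp_add, Real.log_exp] at this
          linarith
        rw [indicator_of_mem (show u ∈ Ioc (-Real.log n) (h - Real.log n) from ⟨g1, g2⟩)]
        have g3 : Real.exp (2 * σ * u) ≤ 8 * (n : ℝ) ^ (-(1 + 2 * ε)) := by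
          have g4 : Real.exp (2 * σ * u) = Real.exp (2 * σ * (u + Real.log n)) *
              (n : ℝ) ^ (-(2 * σ)) := by
            rw [Real.rpow_def_of_pos hnr, ← Real.exp_add]
            congr 1
            ring
          have g5 := exp_two_le hσ0.le hσ2 hh1 (show u + Real.log n ≤ h by linarith)
          have g6 : (n : ℝ) ^ (-(2 * σ)) ≤ (n : ℝ) ^ (-(1 + 2 * ε)) := by
            apply Real.rpow_le_rpow_of_exponent_le
            · exact_mod_cast hn0
            · linarith
          rw [g4]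
          exact mul_le_mul g5 g6 (by positivity) (by norm_num)
        linarith
      · rw [mul_zero, mul_zero]
        exact indicator_nonneg (fun _ _ => by positivity) _
    -- the second part
    have h10 : Real.exp (2 * σ * u) * (2 * (x ^ 2 / T ^ 2)) ≤ (Ioi (-Real.log T)).indicator
        (fun u => 2 / T ^ 2 * Real.exp ((2 * ε - 1) * u)) u := by
      rw [indicator_of_mem (show u ∈ Ioi (-Real.log T) from huT)]
      have g1 : Real.exp (2 * σ * u) * (2 * (x ^ 2 / T ^ 2)) =
          2 / T ^ 2 * Real.exp ((2 * σ - 2) * u) := by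
        have g2 : x ^ 2 = Real.exp (-2 * u) := by
          rw [hx, ← Real.exp_nat_mul]
          congr 1
          push_cast
          ring
        have g3 : Real.exp ((2 * σ - 2) * u) = Real.exp (2 * σ * u) * Real.exp (-2 * u) := by
          rw [← Real.exp_add]
          congr 1
          ring
        rw [g2, g3]
        ring
      rw [g1]
      refine mul_le_mul_of_nonneg_left (Real.exp_le_exp.2 ?_) (by positivity)
      exact mul_le_mul_of_nonpos_right (by linarith) hu0
    linarith
  · -- far left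
    rw [indicator_of_mem (show u ∈ Iic (-Real.log T) from huT)]
    have h1 : ‖gg P h (Real.exp (-u))‖ ≤ 2 * C := by
      unfold gg
      refine (norm_sub_le _ _).trans ?_
      have := hC (Real.exp (-u) * Real.exp h)
      have := hC (Real.exp (-u))
      linarith
    have h2 : ‖gg P h (Real.exp (-u))‖ ^ 2 ≤ 4 * C ^ 2 := by
      have := pow_le_pow_left₀ (norm_nonneg _) h1 2
      linarith [this, show (2 * C) ^ 2 = 4 * C ^ 2 from by ring]
    have h3 : Real.exp (2 * σ * u) ≤ Real.exp ((1 + 2 * ε) * u) := by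
      apply Real.exp_le_exp.2
      exact mul_le_mul_of_nonpos_right (by linarith) hu0
    have h4 : Real.exp (2 * σ * u) * ‖gg P h (Real.exp (-u))‖ ^ 2 ≤
        Real.exp ((1 + 2 * ε) * u) * (4 * C ^ 2) :=
      mul_le_mul h3 h2 (sq_nonneg _) (Real.exp_pos _).le
    linarith [mul_comm (Real.exp ((1 + 2 * ε) * u)) (4 * C ^ 2)]

end Pool.Agent.Helper91.ZM
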